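import Pool.Agent.QSN.StmtsE

/-!
# Squad QSN, row MSO: the data of `SO (p, p + d)` in the short form `MRS`
-/

set_option autoImplicit false

namespace Pool.Agent.QSN.H70

open Matrix Finset Pool.Agent.QSX Pool.Agent.QSN

variable {p d : ℕ}

theorem sg_cases (i : Fin (2 * p + d)) :
    (p ≤ (i : ℕ) ∧ (i : ℕ) < p + d ∧ ((sg p d i : Fin (2 * p + d)) : ℕ) = i) ∨
    (((i : ℕ) < p ∨ p + d ≤ (i : ℕ)) ∧ ((sg p d i : Fin (2 * p + d)) : ℕ) + i + 1 = 2 * p + d) := by
  by_cases h : Md p d i
  · left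
    rw [sg_mid h]
    exact ⟨h.1, h.2, rfl⟩
  · right
    rw [sg_out h, Fin.val_rev]
    have h1 := i.2
    unfold Md at h
    constructor
    · omega
    · omega

theorem sg_eq_iff {a b : Fin (2 * p + d)} : sg p d a = b ↔ a = sg p d b := by
  constructor
  · rintro rfl
    rw [sg_sg]
  · rintro rfl
    rw [sg_sg]

theorem sg_inj {a b : Fin (2 * p + d)} : sg p d a = sg p d b ↔ a = b := by
  rw [sg_eq_iff, sg_sg]

/-- the root vectors -/
def EO (p d : ℕ) (i j : Fin (2 * p + d)) : Matrix (Fin (2 * p + d)) (Fin (2 * p + d)) ℝ :=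
  Matrix.of fun a b => (if a = i ∧ b = j then 1 else 0) -
    (if a = sg p d j ∧ b = sg p d i then 1 else 0)

theorem EO_apply (i j a b : Fin (2 * p + d)) :
    EO p d i j a b = (if a = i ∧ b = j then (1 : ℝ) else 0) -
      (if a = sg p d j ∧ b = sg p d i then 1 else 0) := rfl

/-- the index set -/
abbrev RO (p d : ℕ) : Type := {q : Fin (2 * p + d) × Fin (2 * p + d) //
  (q.1 : ℕ) < p ∧ (q.1 : ℕ) < q.2 ∧ (q.1 : ℕ) + q.2 + 1 < 2 * p + d}

theorem EO_mul (i j a b : Fin (2 * p + d)) (M : Matrix (Fin (2 * p + d)) (Fin (2 * p + d)) ℝ) :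
    (EO p d i j * M) a b = (if a = i then M j b else 0) -
      (if a = sg p d j then M (sg p d i) b else 0) := by
  have h : ∀ (P : Prop) [Decidable P] (c : Fin (2 * p + d)),
      ∑ k, (if P ∧ k = c then (1 : ℝ) else 0) * M k b = if P then M c b else 0 := by
    intro P _ c
    by_cases hP : P
    · simp [hP]
    · simp [hP]
  rw [Matrix.mul_apply]
  simp only [EO_apply, sub_mul, Finset.sum_sub_distrib]
  rw [h, h]

theorem mul_EO (i j a b : Fin (2 * p + d)) (M : Matrix (Fin (2 * p + d)) (Fin (2 * p + d)) ℝ) :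
    (M * EO p d i j) a b = (if b = j then M a i else 0) -
      (if b = sg p d i then M a (sg p d j) else 0) := by
  have h : ∀ (P : Prop) [Decidable P] (c : Fin (2 * p + d)),
      ∑ k, M a k * (if k = c ∧ P then (1 : ℝ) else 0) = if P then M a c else 0 := by
    intro P _ c
    by_cases hP : P
    · simp [hP]
    · simp [hP]
  rw [Matrix.mul_apply]
  simp only [EO_apply, mul_sub, Finset.sum_sub_distrib]
  rw [h, h]

theorem EO_su (l : RO p d) : SU (EO p d l.1.1 l.1.2) := by
  obtain ⟨⟨i, j⟩, h1, h2, h3⟩ := l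
  intro a b hab
  simp only at h1 h2 h3 ⊢
  rw [EO_apply, if_neg, if_neg, sub_zero]
  · rintro ⟨rfl, rfl⟩
    rw [Fin.le_def] at hab
    have hi := i.2
    have hj := j.2
    rcases sg_cases i with h4 | h4 <;> rcases sg_cases j with h5 | h5 <;> omega
  · rintro ⟨rfl, rfl⟩
    rw [Fin.le_def] at hab
    omega

theorem EO_anti (i j a b : Fin (2 * p + d)) :
    EO p d i j (sg p d b) (sg p d a) = - EO p d i j a b := by
  rw [EO_apply, EO_apply, neg_sub]
  congr 1
  · refine if_congr ?_ rfl rfl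
    rw [sg_eq_iff, sg_eq_iff]
    exact and_comm
  · refine if_congr ?_ rfl rfl
    rw [sg_inj, sg_inj]
    exact and_comm

theorem EO_mid (l : RO p d) (a b : Fin (2 * p + d)) (ha : Md p d a) (hb : Md p d b) :
    EO p d l.1.1 l.1.2 a b = 0 := by
  obtain ⟨⟨i, j⟩, h1, h2, h3⟩ := l
  simp only at h1 h2 h3 ⊢
  unfold Md at ha hb
  rw [EO_apply, if_neg, if_neg, sub_zero]
  · rintro ⟨rfl, rfl⟩
    have hi := i.2
    rcases sg_cases i with h4 | h4 <;> omega
  · rintro ⟨rfl, rfl⟩
    omega

/-- the entries in the fundamental region -/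
theorem EO_fund (l : RO p d) (a b : Fin (2 * p + d)) (h1 : (a : ℕ) < p)
    (h2 : (a : ℕ) + b + 1 < 2 * p + d) :
    EO p d l.1.1 l.1.2 a b = if a = l.1.1 ∧ b = l.1.2 then 1 else 0 := by
  obtain ⟨⟨i, j⟩, h3, h4, h5⟩ := l
  simp only at h3 h4 h5
  rw [EO_apply, if_neg (c := a = sg p d j ∧ b = sg p d i), sub_zero]
  rintro ⟨rfl, rfl⟩
  have hi := i.2
  have hj := j.2
  rcases sg_cases i with h6 | h6 <;> rcases sg_cases j with h7 | h7 <;> omega

theorem sum_fund (g : RO p d → ℝ) (l : RO p d) :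
    (∑ l' : RO p d, g l' • EO p d l'.1.1 l'.1.2) l.1.1 l.1.2 = g l := by
  rw [Matrix.sum_apply, Finset.sum_eq_single l]
  · rw [Matrix.smul_apply, EO_fund l _ _ l.2.1 l.2.2.2, if_pos ⟨rfl, rfl⟩, smul_eq_mul, mul_one]
  · intro l' _ hne
    rw [Matrix.smul_apply, EO_fund l' _ _ l.2.1 l.2.2.2, if_neg, smul_zero]
    rintro ⟨h1, h2⟩
    exact hne (Subtype.ext (Prod.ext h1.symm h2.symm))
  · intro h
    exact absurd (mem_univ _) h

/-- the linear space `b` of the datum, with the type written out -/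
def bO (p d : ℕ) : Submodule ℝ (Fin (2 * p + d) → ℝ) := (datO p d).b

/-- the Lie algebra `n` of the datum, with the type written out -/
def nO (p d : ℕ) : Submodule ℝ (Matrix (Fin (2 * p + d)) (Fin (2 * p + d)) ℝ) := (datO p d).n

theorem mem_bO {c : Fin (2 * p + d) → ℝ} : c ∈ bO p d ↔ ∀ i, c (sg p d i) = - c i := Iff.rfl

theorem mem_nO {x : Matrix (Fin (2 * p + d)) (Fin (2 * p + d)) ℝ} : x ∈ nO p d ↔ SU x ∧
    (∀ i j, x (sg p d j) (sg p d i) = - x i j) ∧
    ∀ i j, Md p d i → Md p d j → x i j = 0 := Iff.rfl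

theorem EO_mem (l : RO p d) : EO p d l.1.1 l.1.2 ∈ nO p d :=
  mem_nO.2 ⟨EO_su l, fun a b => EO_anti _ _ a b, fun a b ha hb => EO_mid l a b ha hb⟩

/-- an element of `n` is determined by the fundamental entries -/
theorem ext_fund {x y : Matrix (Fin (2 * p + d)) (Fin (2 * p + d)) ℝ} (hx : x ∈ nO p d)
    (hy : y ∈ nO p d) (h : ∀ l : RO p d, x l.1.1 l.1.2 = y l.1.1 l.1.2) : x = y := by
  rw [mem_nO] at hx hy
  obtain ⟨sx, ax, mx⟩ := hx
  obtain ⟨sy, ay, my⟩ := hy
  have hf : ∀ a b : Fin (2 * p + d), (a : ℕ) < p → (a : ℕ) < b → (a : ℕ) + b + 1 < 2 * p + d →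
      x a b = y a b := fun a b h1 h2 h3 => h ⟨(a, b), h1, h2, h3⟩
  ext a b
  rcases le_or_gt b a with h1 | h1
  · rw [sx a b h1, sy a b h1]
  · rw [Fin.lt_def] at h1
    have ha := a.2
    have hb := b.2
    have ea := sg_cases a
    have eb := sg_cases b
    by_cases hmm : Md p d a ∧ Md p d b
    · rw [mx a b hmm.1 hmm.2, my a b hmm.1 hmm.2]
    · by_cases h2 : (a : ℕ) < p ∧ (a : ℕ) + b + 1 < 2 * p + d
      · exact hf a b h2.1 h1 h2.2
      · unfold Md at hmm
        by_cases h3 : (a : ℕ) + b + 1 = 2 * p + d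
        · have key : ∀ z : Matrix (Fin (2 * p + d)) (Fin (2 * p + d)) ℝ,
              (∀ a b, z (sg p d b) (sg p d a) = - z a b) → z a b = 0 := by
            intro z hz
            have h4 := hz a b
            have e1 : sg p d a = b := by
              rw [Fin.ext_iff]
              rcases ea with ea | ea <;> rcases eb with eb | eb <;> omega
            have e2 : sg p d b = a := by rw [sg_eq_iff, e1]
            rw [e1, e2] at h4
            linarith
          rw [key x ax, key y ay]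
        · have h5 : x (sg p d b) (sg p d a) = y (sg p d b) (sg p d a) := by
            refine hf _ _ ?_ ?_ ?_
            · rcases ea with ea | ea <;> rcases eb with eb | eb <;> omega
            · rcases ea with ea | ea <;> rcases eb with eb | eb <;> omega
            · rcases ea with ea | ea <;> rcases eb with eb | eb <;> omega
          rw [ax, ay] at h5
          linarith

/-! ### The roots -/

theorem c_mid {c : Fin (2 * p + d) → ℝ} (hc : c ∈ bO p d) {i : Fin (2 * p + d)}
    (h : Md p d i) : c i = 0 := by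
  have h1 := mem_bO.1 hc i
  rw [sg_mid h] at h1
  linarith

/-- the vectors of `b` -/
def vv (p d : ℕ) (s : Fin (2 * p + d)) : Fin (2 * p + d) → ℝ := fun a =>
  (if a = s then 1 else 0) - (if a = sg p d s then 1 else 0)

theorem vv_mem (s : Fin (2 * p + d)) : vv p d s ∈ bO p d := by
  rw [mem_bO]
  intro a
  unfold vv
  rw [neg_sub]
  congr 1
  · refine if_congr ?_ rfl rfl
    rw [sg_eq_iff]
  · refine if_congr ?_ rfl rfl
    rw [sg_inj]

theorem vv_of_ne {s a : Fin (2 * p + d)} (h1 : a ≠ s) (h2 : a ≠ sg p d s) : vv p d s a = 0 := by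
  unfold vv
  rw [if_neg h1, if_neg h2, sub_zero]

theorem vv_self {s : Fin (2 * p + d)} (h2 : s ≠ sg p d s) : vv p d s s = 1 := by
  unfold vv
  rw [if_pos rfl, if_neg h2, sub_zero]

/-- the root of an index -/
noncomputable def rr (p d : ℕ) (l : RO p d) : bO p d →ₗ[ℝ] ℝ where
  toFun c := (c : Fin (2 * p + d) → ℝ) l.1.1 - (c : Fin (2 * p + d) → ℝ) l.1.2
  map_add' c d := by
    rw [Submodule.coe_add, Pi.add_apply, Pi.add_apply]
    ring
  map_smul' r c := by
    rw [Submodule.coe_smul, Pi.smul_apply, Pi.smul_apply, smul_eq_mul, smul_eq_mul, RingHom.id_apply,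
      smul_eq_mul]
    ring

theorem rr_apply (l : RO p d) (c : bO p d) :
    rr p d l c = (c : Fin (2 * p + d) → ℝ) l.1.1 - (c : Fin (2 * p + d) → ℝ) l.1.2 := rfl

/-- the vector `vv s` as an element of `b` -/
def vb (p d : ℕ) (s : Fin (2 * p + d)) : bO p d := ⟨vv p d s, vv_mem s⟩

theorem rr_vb_lt (l : RO p d) (s : Fin (2 * p + d)) (h : (s : ℕ) < l.1.1) :
    rr p d l (vb p d s) = 0 := by
  obtain ⟨⟨i, j⟩, h1, h2, h3⟩ := l
  simp only at h1 h2 h3 h
  rw [rr_apply]
  show vv p d s i - vv p d s j = 0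
  have es := sg_cases s
  have hs := s.2
  rw [vv_of_ne, vv_of_ne, sub_zero]
  · intro h'; rw [Fin.ext_iff] at h'; omega
  · intro h'; rw [Fin.ext_iff] at h'; rcases es with es | es <;> omega
  · intro h'; rw [Fin.ext_iff] at h'; omega
  · intro h'; rw [Fin.ext_iff] at h'; rcases es with es | es <;> omega

theorem rr_vb_self (l : RO p d) : rr p d l (vb p d l.1.1) = 1 := by
  obtain ⟨⟨i, j⟩, h1, h2, h3⟩ := l
  simp only at h1 h2 h3
  rw [rr_apply]
  show vv p d i i - vv p d i j = 1
  have es := sg_cases i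
  have hs := i.2
  rw [vv_self, vv_of_ne, sub_zero]
  · intro h'; rw [Fin.ext_iff] at h'; omega
  · intro h'; rw [Fin.ext_iff] at h'; rcases es with es | es <;> omega
  · intro h'; rw [Fin.ext_iff] at h'; rcases es with es | es <;> omega

/-- proportional roots have the same first index and are equal -/
theorem prop_aux (l l' : RO p d) (t : ℝ) (h : rr p d l = t • rr p d l') :
    l.1.1 = l'.1.1 ∧ t = 1 := by
  have hv : ∀ s, rr p d l (vb p d s) = t * rr p d l' (vb p d s) := fun s => by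
    rw [h, LinearMap.smul_apply, smul_eq_mul]
  rcases lt_trichotomy (l.1.1 : ℕ) l'.1.1 with h1 | h1 | h1
  · have h2 := hv l.1.1
    rw [rr_vb_self, rr_vb_lt l' _ h1, mul_zero] at h2
    exact absurd h2 one_ne_zero
  · have e : l.1.1 = l'.1.1 := Fin.ext h1
    refine ⟨e, ?_⟩
    have h2 := hv l.1.1
    rw [rr_vb_self] at h2
    rw [e, rr_vb_self, mul_one] at h2
    exact h2.symm
  · have h2 := hv l'.1.1
    rw [rr_vb_self, rr_vb_lt l _ h1, mul_one] at h2
    have h3 := hv l.1.1
    rw [rr_vb_self, ← h2, zero_mul] at h3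
    exact absurd h3 one_ne_zero

theorem nonprop_rr (l l' : RO p d) (hne : rr p d l ≠ rr p d l') (t : ℝ) :
    rr p d l ≠ t • rr p d l' := by
  intro ht
  have h1 := (prop_aux l l' t ht).2
  apply hne
  rw [ht, h1, one_smul]

theorem eq_fst {l l' : RO p d} (h : rr p d l = rr p d l') : l.1.1 = l'.1.1 :=
  (prop_aux l l' 1 (by rw [one_smul]; exact h)).1

/-- different at `vb` of the smaller first index -/
theorem ne_of_fst {l l' : RO p d} (h : l.1.1 ≠ l'.1.1) : rr p d l ≠ rr p d l' :=
  fun h' => h (eq_fst h')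

theorem wt_rr (l : RO p d) (c : bO p d) :
    diagonal (c : Fin (2 * p + d) → ℝ) * EO p d l.1.1 l.1.2 -
      EO p d l.1.1 l.1.2 * diagonal (c : Fin (2 * p + d) → ℝ) =
      rr p d l c • EO p d l.1.1 l.1.2 := by
  rw [rr_apply]
  obtain ⟨c, hc⟩ := c
  have hc' := mem_bO.1 hc
  show diagonal c * _ - _ * diagonal c = (c l.1.1 - c l.1.2) • _
  ext a b
  rw [Matrix.sub_apply, Matrix.diagonal_mul, Matrix.mul_diagonal, Matrix.smul_apply, smul_eq_mul,
    EO_apply]
  by_cases h1 : a = l.1.1 ∧ b = l.1.2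
  · by_cases h2 : a = sg p d l.1.2 ∧ b = sg p d l.1.1
    · rw [if_pos h1, if_pos h2]
      ring
    · rw [if_pos h1, if_neg h2, h1.1, h1.2]
      ring
  · by_cases h2 : a = sg p d l.1.2 ∧ b = sg p d l.1.1
    · rw [if_neg h1, if_pos h2, h2.1, h2.2, hc', hc']
      ring
    · rw [if_neg h1, if_neg h2]
      ring

theorem EO_rat (i j a b : Fin (2 * p + d)) : ∃ q : ℚ, EO p d i j a b = (q : ℝ) := by
  rw [EO_apply]
  by_cases h1 : a = i ∧ b = j
  · rw [if_pos h1]
    by_cases h2 : a = sg p d j ∧ b = sg p d i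
    · rw [if_pos h2]
      exact ⟨0, by norm_num⟩
    · rw [if_neg h2]
      exact ⟨1, by norm_num⟩
  · rw [if_neg h1]
    by_cases h2 : a = sg p d j ∧ b = sg p d i
    · rw [if_pos h2]
      exact ⟨-1, by norm_num⟩
    · rw [if_neg h2]
      exact ⟨0, by norm_num⟩

theorem span_aux (p d : ℕ) :
    Submodule.span ℝ (Set.range (fun l : RO p d => EO p d l.1.1 l.1.2)) = nO p d := by
  apply le_antisymm
  · rw [Submodule.span_le]
    rintro _ ⟨l, rfl⟩
    exact EO_mem l
  · intro x hx
    have h3 : x = ∑ l : RO p d, x l.1.1 l.1.2 • EO p d l.1.1 l.1.2 := by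
      refine ext_fund hx (Submodule.sum_mem _ fun l _ => Submodule.smul_mem _ _ (EO_mem l))
        fun l => ?_
      rw [sum_fund]
    rw [h3]
    exact Submodule.sum_mem _ fun l _ =>
      Submodule.smul_mem _ _ (Submodule.subset_span ⟨l, rfl⟩)

theorem lin_aux (p d : ℕ) : LinearIndependent ℝ (fun l : RO p d => EO p d l.1.1 l.1.2) := by
  rw [Fintype.linearIndependent_iff]
  intro g hg l
  have h1 := congrFun (congrFun hg l.1.1) l.1.2
  rw [sum_fund] at h1
  exact h1

/-- the positive vector -/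
noncomputable def cp (p d : ℕ) (i : Fin (2 * p + d)) : ℝ :=
  if (i : ℕ) < p then (p : ℝ) - i else if (i : ℕ) < p + d then 0 else (p : ℝ) + d - 1 - i

theorem cp_mem : cp p d ∈ bO p d := by
  rw [mem_bO]
  intro i
  have hi := i.2
  rcases sg_cases i with h | ⟨h | h, h'⟩
  · unfold cp
    rw [if_neg (by omega), if_pos (by omega), if_neg (by omega), if_pos (by omega), neg_zero]
  · unfold cp
    rw [if_neg (by omega), if_neg (by omega), if_pos h]
    have h2 : (((sg p d i : Fin (2 * p + d)) : ℕ) : ℝ) + i + 1 = 2 * p + d := by exact_mod_cast h'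
    linarith
  · unfold cp
    rw [if_pos (by omega), if_neg (by omega), if_neg (by omega)]
    have h2 : (((sg p d i : Fin (2 * p + d)) : ℕ) : ℝ) + i + 1 = 2 * p + d := by exact_mod_cast h'
    linarith

/-- the value of a root at the positive vector is at least 1 -/
theorem rr_cp (l : RO p d) : 1 ≤ rr p d l ⟨cp p d, cp_mem⟩ := by
  obtain ⟨⟨i, j⟩, h1, h2, h3⟩ := l
  simp only at h1 h2 h3
  rw [rr_apply]
  show 1 ≤ cp p d i - cp p d j
  have h1' : ((i : ℕ) : ℝ) + 1 ≤ p := by exact_mod_cast h1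
  have h2' : ((i : ℕ) : ℝ) + 1 ≤ (j : ℕ) := by exact_mod_cast h2
  unfold cp
  rw [if_pos h1]
  by_cases hA : (j : ℕ) < p
  · rw [if_pos hA]
    linarith
  · rw [if_neg hA]
    by_cases hB : (j : ℕ) < p + d
    · rw [if_pos hB]
      linarith
    · rw [if_neg hB]
      have hC : (p : ℝ) + d ≤ (j : ℕ) := by exact_mod_cast not_lt.1 hB
      linarith

/-- upper bound for the short roots -/
theorem rr_cp_short (l : RO p d) (h : (l.1.2 : ℕ) < p + d) (h2 : ¬ (l.1.1 : ℕ) + 1 < l.1.2 ∨ ¬ (l.1.1 : ℕ) + 1 < p) :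
    rr p d l ⟨cp p d, cp_mem⟩ ≤ 1 := by
  obtain ⟨⟨i, j⟩, h1, h2', h3⟩ := l
  simp only at h1 h2' h3 h h2
  rw [rr_apply]
  show cp p d i - cp p d j ≤ 1
  unfold cp
  rw [if_pos h1]
  by_cases hA : (j : ℕ) < p
  · rw [if_pos hA]
    have h4 : (j : ℕ) ≤ i + 1 := by omega
    have h4' : ((j : ℕ) : ℝ) ≤ i + 1 := by exact_mod_cast h4
    linarith
  · rw [if_neg hA, if_pos h]
    have h4 : p ≤ (i : ℕ) + 1 := by omega
    have h4' : (p : ℝ) ≤ i + 1 := by exact_mod_cast h4
    linarith

theorem sep_rr (hd : 1 ≤ d) (a : bO p d) (ha : ∀ l, rr p d l a = 0) : a = 0 := by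
  obtain ⟨c, hc⟩ := a
  have hc' := mem_bO.1 hc
  have key : ∀ i : Fin (2 * p + d), (i : ℕ) < p → c i = 0 := by
    intro i hi
    have hm : (p : ℕ) < 2 * p + d := by omega
    have h1 := ha ⟨(i, ⟨p, hm⟩), hi, hi, by
      show (i : ℕ) + p + 1 < 2 * p + d
      omega⟩
    rw [rr_apply] at h1
    have h2 : c ⟨p, hm⟩ = 0 := c_mid hc (by
      unfold Md
      show p ≤ p ∧ p < p + d
      omega)
    have h3 : c i - c ⟨p, hm⟩ = 0 := h1
    linarith
  refine Subtype.ext (funext fun i => ?_)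
  show c i = 0
  rcases sg_cases i with h | ⟨h | h, h'⟩
  · exact c_mid hc ⟨h.1, h.2.1⟩
  · exact key i h
  · have h1 := hc' i
    rw [key (sg p d i) (by omega)] at h1
    linarith

/-! ### Generation -/

/-- types (A) and (B) -/
theorem br_AB (i h j : Fin (2 * p + d)) (h1 : (i : ℕ) < h) (h2 : (h : ℕ) < p) (h3 : (h : ℕ) < j)
    (h4 : (j : ℕ) < p + d) :
    EO p d i h * EO p d h j - EO p d h j * EO p d i h = EO p d i j := by
  have hi := i.2
  have hj := j.2
  have ei := sg_cases i
  have eh := sg_cases h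
  have ej := sg_cases j
  ext a b
  rw [Matrix.sub_apply, EO_mul, EO_mul]
  simp only [EO_apply]
  have n1 : ¬ (h = sg p d j) := by
    intro h'; rw [Fin.ext_iff] at h'; rcases ej with ej | ej <;> omega
  have n2 : ¬ (sg p d i = h) := by
    intro h'; rw [Fin.ext_iff] at h'; rcases ei with ei | ei <;> omega
  have n3 : ¬ (sg p d i = sg p d j) := by
    rw [sg_inj]; intro h'; rw [Fin.ext_iff] at h'; omega
  have n4 : ¬ (j = i) := by
    intro h'; rw [Fin.ext_iff] at h'; omega
  have n5 : ¬ (j = sg p d h) := by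
    intro h'; rw [Fin.ext_iff] at h'; rcases eh with eh | eh <;> omega
  have n6 : ¬ (sg p d h = i) := by
    intro h'; rw [Fin.ext_iff] at h'; rcases eh with eh | eh <;> omega
  simp only [n1, n2, n3, n4, n5, n6, false_and, if_false, true_and, sub_zero, zero_sub, ite_self,
    ite_and]
  split_ifs <;> norm_num

/-- type (C) -/
theorem br_C (i h r : Fin (2 * p + d)) (h1 : (i : ℕ) < h) (h2 : (h : ℕ) < p) (h3 : p ≤ (r : ℕ))
    (h4 : (r : ℕ) < p + d) :
    EO p d i r * EO p d h r - EO p d h r * EO p d i r = - EO p d i (sg p d h) := by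
  have hi := i.2
  have hr := r.2
  have ei := sg_cases i
  have eh := sg_cases h
  have er : sg p d r = r := sg_mid ⟨h3, h4⟩
  ext a b
  rw [Matrix.sub_apply, EO_mul, EO_mul, Matrix.neg_apply]
  simp only [EO_apply, er, sg_sg]
  have n1 : ¬ (r = h) := by
    intro h'; rw [Fin.ext_iff] at h'; omega
  have n2 : ¬ (sg p d i = h) := by
    intro h'; rw [Fin.ext_iff] at h'; rcases ei with ei | ei <;> omega
  have n3 : ¬ (sg p d i = r) := by
    intro h'; rw [Fin.ext_iff] at h'; rcases ei with ei | ei <;> omega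
  have n4 : ¬ (r = i) := by
    intro h'; rw [Fin.ext_iff] at h'; omega
  have n5 : ¬ (sg p d h = i) := by
    intro h'; rw [Fin.ext_iff] at h'; rcases eh with eh | eh <;> omega
  have n6 : ¬ (sg p d h = r) := by
    intro h'; rw [Fin.ext_iff] at h'; rcases eh with eh | eh <;> omega
  simp only [n1, n2, n3, n4, n5, n6, false_and, if_false, true_and, sub_zero, zero_sub, ite_self,
    ite_and]
  split_ifs <;> norm_num

theorem gen_aux (hd : 1 ≤ d) (t l l' : RO p d) (q q' : ℕ) (hq : 1 ≤ q) (hq' : 1 ≤ q')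
    (ht : rr p d t = (q : ℝ) • rr p d l + (q' : ℝ) • rr p d l') :
    EO p d t.1.1 t.1.2 ∈ Submodule.span ℝ {z | ∃ w w' : RO p d, rr p d w ≠ rr p d w' ∧
      rr p d w + rr p d w' = rr p d t ∧
      z = EO p d w.1.1 w.1.2 * EO p d w'.1.1 w'.1.2 - EO p d w'.1.1 w'.1.2 * EO p d w.1.1 w.1.2} := by
  have hval : 2 ≤ rr p d t ⟨cp p d, cp_mem⟩ := by
    have e := LinearMap.congr_fun ht ⟨cp p d, cp_mem⟩
    rw [LinearMap.add_apply, LinearMap.smul_apply, LinearMap.smul_apply, smul_eq_mul,
      smul_eq_mul] at e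
    have h1 := rr_cp l
    have h2 := rr_cp l'
    have h3 : (1 : ℝ) ≤ q := by exact_mod_cast hq
    have h4 : (1 : ℝ) ≤ q' := by exact_mod_cast hq'
    rw [e]
    nlinarith
  have hshort := rr_cp_short t
  obtain ⟨⟨i, j⟩, h1, h2, h3⟩ := t
  simp only at h1 h2 h3 hshort ⊢
  have hi := i.2
  have hj := j.2
  by_cases hC : (j : ℕ) < p + d
  · have hh : (i : ℕ) + 1 < j ∧ (i : ℕ) + 1 < p := by
      by_contra hcon
      rw [not_and_or] at hcon
      have := hshort hC hcon
      linarith
    obtain ⟨h, hh'⟩ : ∃ h : Fin (2 * p + d), (h : ℕ) = i + 1 := ⟨⟨i + 1, by omega⟩, rfl⟩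
    refine Submodule.subset_span ⟨⟨(i, h), h1, by show (i : ℕ) < h; omega, by
      show (i : ℕ) + h + 1 < 2 * p + d; omega⟩, ⟨(h, j), by show (h : ℕ) < p; omega, by
      show (h : ℕ) < j; omega, by show (h : ℕ) + j + 1 < 2 * p + d; omega⟩, ?_, ?_, ?_⟩
    · refine ne_of_fst ?_
      intro h'
      have h'' : (i : ℕ) = h := congrArg Fin.val h'
      omega
    · ext c
      rw [LinearMap.add_apply, rr_apply, rr_apply, rr_apply]
      show (c : Fin (2 * p + d) → ℝ) i - (c : Fin (2 * p + d) → ℝ) h +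
        ((c : Fin (2 * p + d) → ℝ) h - (c : Fin (2 * p + d) → ℝ) j) = _
      ring
    · exact (br_AB i h j (by omega) (by omega) (by omega) hC).symm
  · obtain ⟨r, hr⟩ : ∃ r : Fin (2 * p + d), (r : ℕ) = p := ⟨⟨p, by omega⟩, rfl⟩
    have ej := sg_cases j
    obtain ⟨h, hh⟩ : ∃ h : Fin (2 * p + d), h = sg p d j := ⟨_, rfl⟩
    have hj' : j = sg p d h := by rw [hh, sg_sg]
    have hhv : (h : ℕ) + j + 1 = 2 * p + d := by
      rw [hh]
      rcases ej with ej | ej <;> omega
    have e1 := br_C i h r (by omega) (by omega) (by omega) (by omega)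
    rw [← hj'] at e1
    have e2 : EO p d i j = -(EO p d i r * EO p d h r - EO p d h r * EO p d i r) := by
      rw [e1, neg_neg]
    rw [e2]
    refine Submodule.neg_mem _ (Submodule.subset_span ⟨⟨(i, r), h1, by show (i : ℕ) < r; omega, by
      show (i : ℕ) + r + 1 < 2 * p + d; omega⟩, ⟨(h, r), by show (h : ℕ) < p; omega, by
      show (h : ℕ) < r; omega, by show (h : ℕ) + r + 1 < 2 * p + d; omega⟩, ?_, ?_, rfl⟩)
    · refine ne_of_fst ?_
      intro h'
      have h'' : (i : ℕ) = h := congrArg Fin.val h'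
      omega
    · ext c
      rw [LinearMap.add_apply, rr_apply, rr_apply, rr_apply]
      show (c : Fin (2 * p + d) → ℝ) i - (c : Fin (2 * p + d) → ℝ) r +
        ((c : Fin (2 * p + d) → ℝ) h - (c : Fin (2 * p + d) → ℝ) r) =
        (c : Fin (2 * p + d) → ℝ) i - (c : Fin (2 * p + d) → ℝ) j
      have e3 : (c : Fin (2 * p + d) → ℝ) r = 0 := c_mid c.2 ⟨by omega, by omega⟩
      have e4 : (c : Fin (2 * p + d) → ℝ) j = - (c : Fin (2 * p + d) → ℝ) h := by
        rw [hj']
        exact mem_bO.1 c.2 h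
      rw [e3, e4]
      ring

/-! ### Climbing -/

theorem span_entry (S : Set (Matrix (Fin (2 * p + d)) (Fin (2 * p + d)) ℝ))
    (a b : Fin (2 * p + d)) (h : ∀ z ∈ S, z a b = 0)
    (x : Matrix (Fin (2 * p + d)) (Fin (2 * p + d)) ℝ) (hx : x ∈ Submodule.span ℝ S) :
    x a b = 0 := by
  induction hx using Submodule.span_induction with
  | mem z hz => exact h z hz
  | zero => rfl
  | add y z _ _ hy hz => rw [Matrix.add_apply, hy, hz, add_zero]
  | smul c y _ hy => rw [Matrix.smul_apply, hy, smul_zero]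

theorem climb_aux (hp : 2 ≤ p) (hd : 1 ≤ d) (l top : RO p d) (htop1 : (top.1.1 : ℕ) = 0)
    (htop2 : (top.1.2 : ℕ) + 2 = 2 * p + d) (hl : rr p d l ≠ rr p d top)
    (x : Matrix (Fin (2 * p + d)) (Fin (2 * p + d)) ℝ)
    (hx : x ∈ Submodule.span ℝ ((fun l : RO p d => EO p d l.1.1 l.1.2) ''
      {l' | rr p d l' = rr p d l}))
    (hk : ∀ k : RO p d, rr p d k ≠ rr p d l →
      x * EO p d k.1.1 k.1.2 - EO p d k.1.1 k.1.2 * x = 0) : x = 0 := by
  have hxn : x ∈ nO p d := by
    refine (Submodule.span_le.2 ?_) hx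
    rintro _ ⟨l', _, rfl⟩
    exact EO_mem l'
  refine ext_fund hxn (nO p d).zero_mem fun l'' => ?_
  rw [Matrix.zero_apply]
  by_cases hS : rr p d l'' = rr p d l
  swap
  · refine span_entry _ _ _ ?_ x hx
    rintro _ ⟨l', hl', rfl⟩
    show EO p d l'.1.1 l'.1.2 l''.1.1 l''.1.2 = 0
    rw [EO_fund l' _ _ l''.2.1 l''.2.2.2, if_neg]
    rintro ⟨h1, h2⟩
    apply hS
    have : l'' = l' := Subtype.ext (Prod.ext h1 h2)
    rw [this]
    exact hl'
  · have hfst := eq_fst hS
    obtain ⟨⟨i, j⟩, h1, h2, h3⟩ := l''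
    simp only at h1 h2 h3 hfst ⊢
    have hi := i.2
    have hj := j.2
    have ej := sg_cases j
    obtain ⟨z, hz⟩ : ∃ z : Fin (2 * p + d), (z : ℕ) = 0 := ⟨⟨0, by omega⟩, rfl⟩
    by_cases hi0 : (i : ℕ) = 0
    · have hiz : i = z := Fin.ext (by omega)
      by_cases hjp : (j : ℕ) < p
      · -- `k = (j, p)`
        obtain ⟨r, hr⟩ : ∃ r : Fin (2 * p + d), (r : ℕ) = p := ⟨⟨p, by omega⟩, rfl⟩
        have er : sg p d r = r := sg_mid ⟨by omega, by omega⟩
        have h4 := hk ⟨(j, r), hjp, by show (j : ℕ) < r; omega, by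
          show (j : ℕ) + r + 1 < 2 * p + d; omega⟩ (by
            refine ne_of_fst ?_
            intro h'
            rw [← hfst] at h'
            have h'' : (j : ℕ) = i := congrArg Fin.val h'
            omega)
        have h5 := congrFun (congrFun h4 i) r
        rw [Matrix.sub_apply, mul_EO, EO_mul, Matrix.zero_apply] at h5
        simp only [er, if_true] at h5
        rw [if_neg (c := r = sg p d j), if_neg (c := i = j), if_neg (c := i = r)] at h5
        · linarith
        · intro h'; rw [Fin.ext_iff] at h'; omega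
        · intro h'; rw [Fin.ext_iff] at h'; omega
        · intro h'; rw [Fin.ext_iff] at h'; rcases ej with ej | ej <;> omega
      · -- `k = (1, sg j)`
        obtain ⟨o, ho⟩ : ∃ o : Fin (2 * p + d), (o : ℕ) = 1 := ⟨⟨1, by omega⟩, rfl⟩
        have eo := sg_cases o
        have hne1 : ((sg p d j : Fin (2 * p + d)) : ℕ) ≠ 1 := by
          intro h'
          apply hl
          rw [← hS]
          have e1 : i = top.1.1 := Fin.ext (by omega)
          have e2 : j = top.1.2 := Fin.ext (by rcases ej with ej | ej <;> omega)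
          congr 1
          exact Subtype.ext (Prod.ext e1 e2)
        have h4 := hk ⟨(o, sg p d j), by show (o : ℕ) < p; omega, by
          show (o : ℕ) < ((sg p d j : Fin (2 * p + d)) : ℕ)
          rcases ej with ej | ej <;> omega, by
          show (o : ℕ) + ((sg p d j : Fin (2 * p + d)) : ℕ) + 1 < 2 * p + d
          rcases ej with ej | ej <;> omega⟩ (by
            refine ne_of_fst ?_
            intro h'
            rw [← hfst] at h'
            have h'' : (o : ℕ) = i := congrArg Fin.val h'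
            omega)
        have h5 := congrFun (congrFun h4 i) (sg p d o)
        rw [Matrix.sub_apply, mul_EO, EO_mul, Matrix.zero_apply] at h5
        simp only [sg_sg, if_true] at h5
        rw [if_neg (c := sg p d o = sg p d j), if_neg (c := i = o), if_neg (c := i = j)] at h5
        · linarith
        · intro h'; rw [Fin.ext_iff] at h'; omega
        · intro h'; rw [Fin.ext_iff] at h'; omega
        · rw [sg_inj]
          intro h'; rw [Fin.ext_iff] at h'; omega
    · -- `k = (0, i)`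
      have hrow : ∀ b, x z b = 0 := by
        intro b
        refine span_entry _ _ _ ?_ x hx
        rintro _ ⟨l', hl', rfl⟩
        show EO p d l'.1.1 l'.1.2 z b = 0
        have e1 : l'.1.1 = i := by
          have := eq_fst (show rr p d l' = rr p d l from hl')
          rw [this, hfst]
        have e2 := l'.2
        have e3 := sg_cases l'.1.2
        have e4 := l'.1.2.2
        have e1' : (l'.1.1 : ℕ) = i := congrArg Fin.val e1
        rw [EO_apply, if_neg, if_neg, sub_zero]
        · rintro ⟨h', -⟩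
          rw [Fin.ext_iff] at h'
          rcases e3 with e3 | e3 <;> omega
        · rintro ⟨h', -⟩
          rw [Fin.ext_iff] at h'
          omega
      have h4 := hk ⟨(z, i), by show (z : ℕ) < p; omega, by show (z : ℕ) < i; omega, by
        show (z : ℕ) + i + 1 < 2 * p + d; omega⟩ (by
          refine ne_of_fst ?_
          intro h'
          rw [← hfst] at h'
          have h'' : (z : ℕ) = i := congrArg Fin.val h'
          omega)
      have h5 := congrFun (congrFun h4 z) j
      rw [Matrix.sub_apply, mul_EO, EO_mul, Matrix.zero_apply] at h5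
      simp only [hrow, ite_self, sub_zero, if_true] at h5
      have ei := sg_cases i
      rw [if_neg (c := z = sg p d i)] at h5
      · linarith
      · intro h'; rw [Fin.ext_iff] at h'; rcases ei with ei | ei <;> omega

theorem rank_aux (hp : 2 ≤ p) (hd : 1 ≤ d) (l : RO p d) :
    ¬ ∀ l' : RO p d, rr p d l' = rr p d l := by
  intro h
  have h1 := h ⟨(⟨0, by omega⟩, ⟨p, by omega⟩), by show 0 < p; omega, by show 0 < p; omega, by
    show 0 + p + 1 < 2 * p + d; omega⟩
  have h2 := h ⟨(⟨1, by omega⟩, ⟨p, by omega⟩), by show 1 < p; omega, by show 1 < p; omega, by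
    show 1 + p + 1 < 2 * p + d; omega⟩
  have h3 := eq_fst (h1.trans h2.symm)
  have h4 : (0 : ℕ) = 1 := congrArg Fin.val h3
  omega

theorem scal_rr (κ : Unit → ℝ) : ∃ S : bO p d →ₗ[ℝ] bO p d,
    ∀ l a, rr p d l (S a) = κ () * rr p d l a :=
  ⟨κ () • LinearMap.id, fun l a => by
    rw [LinearMap.smul_apply, LinearMap.id_apply, map_smul, smul_eq_mul]⟩

/-- Row MSO. -/
theorem mso : MsoStmt := by
  intro p d hp hd
  exact ⟨{
    ι := RO p d
    fin := inferInstance
    dec := inferInstance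
    e := fun l => (EO p d l.1.1 l.1.2 : Matrix (Fin (2 * p + d)) (Fin (2 * p + d)) ℝ)
    rat := fun l i j => EO_rat l.1.1 l.1.2 i j
    span_e := span_aux p d
    lin := lin_aux p d
    rt := rr p d
    wt := wt_rr
    pos := ⟨⟨cp p d, cp_mem⟩, fun l => lt_of_lt_of_le one_pos (rr_cp l)⟩
    sep := sep_rr hd
    nonprop := nonprop_rr
    gen := fun t l l' _ q q' hq hq' ht => gen_aux hd t l l' q q' hq hq' ht
    J := Unit
    comp := fun _ => ()
    top := fun _ => ⟨(⟨0, by omega⟩, ⟨2 * p + d - 2, by omega⟩), by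
      show 0 < p; omega, by show 0 < 2 * p + d - 2; omega, by
      show 0 + (2 * p + d - 2) + 1 < 2 * p + d; omega⟩
    comp_top := fun _ => rfl
    comp_rt := fun _ _ _ => rfl
    climb := fun l hl x hx hk => climb_aux hp hd l _ rfl (by
      show 2 * p + d - 2 + 2 = 2 * p + d; omega) hl x hx hk
    rank1 := fun l h => absurd (fun l' => h l' rfl) (rank_aux hp hd l)
    scal := fun κ _ => scal_rr κ }⟩

end Pool.Agent.QSN.H70

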